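import Mathlib

set_option autoImplicit false

/-! Sorting a strongly series summable M-basis block by block. -/

namespace Pool.Agent.R268.TB

open Finset Filter Topology

/-- sorting a block -/
lemma exists_sort (g : ℕ → ℝ) (a b : ℕ) : ∃ π : Equiv.Perm ℕ,
    (∀ i, (i < a ∨ b ≤ i) → π i = i) ∧ (∀ i, a ≤ i → i < b → a ≤ π i ∧ π i < b) ∧
      ∀ i j, a ≤ i → i ≤ j → j < b → g (π j) ≤ g (π i) := by
  classical
  let f : Fin (b - a) ≃ {i : ℕ // a ≤ i ∧ i < b} :=
    { toFun := fun j => ⟨a + j, by have := j.2; omega⟩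
      invFun := fun i => ⟨(i : ℕ) - a, by have := i.2; omega⟩
      left_inv := by intro j; ext; simp
      right_inv := by intro i; ext; have := i.2; simp; omega }
  let s : Equiv.Perm (Fin (b - a)) := Tuple.sort (fun j : Fin (b - a) => - g (a + j))
  have hs : Monotone ((fun j : Fin (b - a) => - g (a + j)) ∘ s) := Tuple.monotone_sort _
  refine ⟨s.extendDomain f, ?_, ?_, ?_⟩
  · intro i hi
    apply Equiv.Perm.extendDomain_apply_not_subtype
    omega
  · intro i h1 h2
    have h3 : (⟨i, h1, h2⟩ : {i : ℕ // a ≤ i ∧ i < b}) = f (f.symm ⟨i, h1, h2⟩) := by simp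
    have h4 : s.extendDomain f i = f (s (f.symm ⟨i, h1, h2⟩)) := by
      rw [← Equiv.Perm.extendDomain_apply_image, ← h3]
    rw [h4]
    exact (f (s (f.symm ⟨i, h1, h2⟩))).2
  · intro i j h1 h2 h3
    have key : ∀ (k : ℕ) (h1 : a ≤ k) (h2 : k < b),
        s.extendDomain f k = a + (s ⟨k - a, by omega⟩ : ℕ) := by
      intro k h1 h2
      have h3 : (⟨k, h1, h2⟩ : {i : ℕ // a ≤ i ∧ i < b}) = f (f.symm ⟨k, h1, h2⟩) := by simp
      have h4 : s.extendDomain f k = f (s (f.symm ⟨k, h1, h2⟩)) := by
        rw [← Equiv.Perm.extendDomain_apply_image, ← h3]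
      rw [h4]
      rfl
    rw [key i h1 (by omega), key j (by omega) h3]
    have h5 : (⟨i - a, by omega⟩ : Fin (b - a)) ≤ ⟨j - a, by omega⟩ := by
      rw [Fin.mk_le_mk]; omega
    have h6 := hs h5
    simp only [Function.comp] at h6
    linarith

/-- the variation of a sequence which is `1`, then decreasing, then `0` -/
lemma variation (c : ℕ → ℝ) (a b : ℕ) (C : ℝ) (hC : ∀ m, |c m| ≤ C)
    (h1 : ∀ m, m < a → c m = 1) (h2 : ∀ i j, a ≤ i → i ≤ j → j < b → c j ≤ c i)
    (h3 : ∀ m, b ≤ m → c m = 0) (hab : a ≤ b) (N : ℕ) :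
    ∑ m ∈ range N, |c m - c (m + 1)| ≤ 6 * C := by
  classical
  have hC0 : 0 ≤ C := (abs_nonneg _).trans (hC 0)
  have hd : ∀ m, |c m - c (m + 1)| ≤ 2 * C := by
    intro m
    have := abs_sub (c m) (c (m + 1))
    have h4 := hC m
    have h5 := hC (m + 1)
    linarith [abs_sub_abs_le_abs_sub (c m) (c (m + 1)), abs_sub (c m) (c (m+1))]
  -- termwise bound
  have key : ∀ m, |c m - c (m + 1)| ≤ (if m + 1 = a then 2 * C else 0) +
      (if m + 1 = b then 2 * C else 0) +
      (if a ≤ m ∧ m + 1 < b then c m - c (m + 1) else 0) := by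
    intro m
    have e3 : 0 ≤ (if a ≤ m ∧ m + 1 < b then c m - c (m + 1) else 0) := by
      split_ifs with h
      · have := h2 m (m + 1) h.1 (by omega) h.2
        linarith
      · exact le_rfl
    by_cases ha : m + 1 = a
    · have e2 : 0 ≤ (if m + 1 = b then 2 * C else 0) := by split_ifs <;> linarith
      rw [if_pos ha]
      have := hd m
      linarith
    · by_cases hb : m + 1 = b
      · rw [if_neg ha, if_pos hb]
        have := hd m
        linarith
      · rw [if_neg ha, if_neg hb]
        by_cases h : a ≤ m ∧ m + 1 < b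
        · rw [if_pos h, abs_of_nonneg]
          · linarith
          · have := h2 m (m + 1) h.1 (by omega) h.2
            linarith
        · rw [if_neg h]
          rcases Nat.lt_or_ge m a with h4 | h4
          · rw [h1 m h4, h1 (m + 1) (by omega)]; simp
          · rw [h3 m (by omega), h3 (m + 1) (by omega)]; simp
  have hsum := Finset.sum_le_sum (s := range N) fun m _ => key m
  rw [Finset.sum_add_distrib, Finset.sum_add_distrib] at hsum
  have s1 : ∀ x : ℕ, ∑ m ∈ range N, (if m + 1 = x then 2 * C else 0) ≤ 2 * C := by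
    intro x
    rw [← Finset.sum_filter, Finset.sum_const, nsmul_eq_mul]
    have : ((range N).filter (fun m => m + 1 = x)).card ≤ 1 := by
      rw [Finset.card_le_one]
      intro i hi j hj
      rw [Finset.mem_filter] at hi hj
      omega
    have h4 : (((range N).filter (fun m => m + 1 = x)).card : ℝ) ≤ 1 := by exact_mod_cast this
    nlinarith
  have s2 : ∑ m ∈ range N, (if a ≤ m ∧ m + 1 < b then c m - c (m + 1) else 0) ≤ 2 * C := by
    rw [← Finset.sum_filter]
    have h4 : (range N).filter (fun m => a ≤ m ∧ m + 1 < b) = Ico a (min N (b - 1)) := by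
      ext m
      rw [Finset.mem_filter, Finset.mem_range, Finset.mem_Ico]
      omega
    rw [h4]
    rcases Nat.lt_or_ge (min N (b - 1)) a with h5 | h5
    · rw [Finset.Ico_eq_empty (by omega), Finset.sum_empty]; linarith
    · rw [Finset.sum_Ico_eq_sum_range]
      have h6 : ∀ k, ∑ i ∈ range k, (c (a + i) - c (a + i + 1)) = c a - c (a + k) := by
        intro k
        induction k with
        | zero => simp
        | succ k ih => rw [Finset.sum_range_succ, ih]; ring_nf
      rw [h6]
      have h7 := abs_le.mp (hC a)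
      have h8 := abs_le.mp (hC (a + (min N (b - 1) - a)))
      linarith
  linarith [s1 a, s1 b]

variable {𝕜 : Type} [RCLike 𝕜] {E : Type} [NormedAddCommGroup E] [NormedSpace 𝕜 E]

/-- summation by parts -/
lemma abel (z : ℕ → E) (c : ℕ → ℝ) (n : ℕ) (hc : c (n + 1) = 0) :
    ∑ m ∈ range (n + 1), ((c m - c (m + 1) : ℝ) : 𝕜) • ∑ i ∈ range (m + 1), z i =
      ∑ i ∈ range (n + 1), (c i : 𝕜) • z i := by
  have key : ∀ N, ∑ m ∈ range N, ((c m - c (m + 1) : ℝ) : 𝕜) • ∑ i ∈ range (m + 1), z i +
      (c N : 𝕜) • ∑ i ∈ range N, z i = ∑ i ∈ range N, (c i : 𝕜) • z i := by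
    intro N
    induction N with
    | zero => simp
    | succ N ih =>
      rw [Finset.sum_range_succ, Finset.sum_range_succ (fun i => (c i : 𝕜) • z i), ← ih,
        Finset.sum_range_succ z N]
      push_cast
      simp only [smul_add, sub_smul]
      abel
  have h := key (n + 1)
  rw [hc] at h
  simpa using h

theorem main [CompleteSpace E] (x : ℕ → E) (f : ℕ → E →L[𝕜] 𝕜) (l : ℕ → ℕ → ℝ)
    (hb : ∀ i j : ℕ, f i (x j) = if i = j then (1 : 𝕜) else 0)
    (hl : ∀ y : E, Tendsto (fun n : ℕ => ∑ i ∈ range (n + 1), (l n i : 𝕜) • f i y • x i)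
      atTop (𝓝 y)) :
    ∃ (σ : Equiv.Perm ℕ) (t : ℕ → ℕ → ℝ),
      (∀ n m : ℕ, n < m → t n m = 0) ∧
      (∃ C : ℝ, ∀ n : ℕ, ∑ m ∈ range (n + 1), |t n m| ≤ C) ∧
      (∀ m : ℕ, Tendsto (fun n : ℕ => t n m) atTop (𝓝 0)) ∧
      Tendsto (fun n : ℕ => ∑ m ∈ range (n + 1), t n m) atTop (𝓝 1) ∧
      ∀ y : E, Tendsto (fun n : ℕ => ∑ m ∈ range (n + 1),
        (t n m : 𝕜) • ∑ i ∈ range (m + 1), f (σ i) y • x (σ i)) atTop (𝓝 y) := by
  classical
  -- the operators
  set U : ℕ → E →L[𝕜] E := fun n => ∑ i ∈ range (n + 1), (l n i : 𝕜) • (f i).smulRight (x i)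
    with hU
  have hUapp : ∀ n y, U n y = ∑ i ∈ range (n + 1), (l n i : 𝕜) • f i y • x i := by
    intro n y; simp [hU]
  have hx0 : ∀ i, x i ≠ 0 := by
    intro i hi
    have := hb i i
    rw [hi, map_zero, if_pos rfl] at this
    exact zero_ne_one this
  obtain ⟨C0, hC0⟩ : ∃ C, ∀ n, ‖U n‖ ≤ C := by
    apply banach_steinhaus
    intro y
    have h1 := (hl y).norm.bddAbove_range
    obtain ⟨B, hB⟩ := h1
    exact ⟨B, fun n => by rw [hUapp]; exact hB ⟨n, rfl⟩⟩
  set C := max C0 1 with hC
  have hUx : ∀ n i, i ≤ n → U n (x i) = (l n i : 𝕜) • x i := by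
    intro n i hi
    rw [hUapp, Finset.sum_eq_single_of_mem i (by simpa using Nat.lt_succ_of_le hi)]
    · rw [hb, if_pos rfl, one_smul]
    · intro j _ hj
      rw [hb, if_neg hj, zero_smul, smul_zero]
  have hlC : ∀ n i, i ≤ n → |l n i| ≤ C := by
    intro n i hi
    have h1 := (U n).le_opNorm (x i)
    rw [hUx n i hi, norm_smul, RCLike.norm_ofReal] at h1
    have h2 : 0 < ‖x i‖ := norm_pos_iff.mpr (hx0 i)
    have h3 : |l n i| ≤ ‖U n‖ := le_of_mul_le_mul_right h1 h2
    exact h3.trans ((hC0 n).trans (le_max_left _ _))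
  have hl1 : ∀ i, Tendsto (fun n => l n i) atTop (𝓝 1) := by
    intro i
    have h1 := ((f i).continuous.tendsto (x i)).comp (hl (x i))
    rw [hb, if_pos rfl] at h1
    have h2 : Tendsto (fun n => (l n i : 𝕜)) atTop (𝓝 (1 : 𝕜)) := by
      refine h1.congr' ?_
      filter_upwards [eventually_ge_atTop i] with n hn
      simp only [Function.comp]
      rw [← hUapp, hUx n i hn, map_smul, hb, if_pos rfl]
      simp
    have h3 := (RCLike.continuous_re.tendsto (1 : 𝕜)).comp h2
    rw [RCLike.one_re] at h3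
    exact h3.congr fun n => by simp
  -- the subsequence
  set w : ℕ → ℝ := fun i => ‖f i‖ * ‖x i‖ with hw
  have hnext : ∀ (k a : ℕ), ∃ n, a ≤ n ∧ ∑ i ∈ range a, |1 - l n i| * w i ≤ 1 / (k + 1) := by
    intro k a
    have h1 : Tendsto (fun n => ∑ i ∈ range a, |1 - l n i| * w i) atTop (𝓝 0) := by
      have h2 : Tendsto (fun n => ∑ i ∈ range a, |1 - l n i| * w i) atTop
          (𝓝 (∑ i ∈ range a, |1 - 1| * w i)) :=
        tendsto_finsetSum _ fun i _ => (((hl1 i).const_sub 1).abs).mul_const _
      simpa using h2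
    have h3 : (0 : ℝ) < 1 / (k + 1) := by positivity
    obtain ⟨n, hn1, hn2⟩ := ((h1.eventually_le_const h3).and (eventually_ge_atTop a)).exists
    exact ⟨n, hn2, hn1⟩
  choose nx hnx1 hnx2 using hnext
  -- `a k` is the beginning of the block `k`, the operator `V k` uses the row `nx k (a k)`
  obtain ⟨a, ha0, hasucc⟩ : ∃ a : ℕ → ℕ, a 0 = 0 ∧ ∀ k, a (k + 1) = nx k (a k) + 1 :=
    ⟨fun k => Nat.rec 0 (fun k p => nx k p + 1) k, rfl, fun _ => rfl⟩
  have halt : ∀ k, a k < a (k + 1) := fun k => by rw [hasucc]; have := hnx1 k (a k); omega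
  have hamono : StrictMono a := strictMono_nat_of_lt_succ halt
  have hblk : ∀ i, ∃ k, a k ≤ i ∧ i < a (k + 1) := by
    intro i
    have h1 : ∃ k, i < a (k + 1) := ⟨i, lt_of_lt_of_le (Nat.lt_succ_self i) hamono.le_apply⟩
    refine ⟨Nat.find h1, ?_, Nat.find_spec h1⟩
    by_contra h2
    push Not at h2
    rcases Nat.eq_zero_or_pos (Nat.find h1) with h3 | h3
    · rw [h3, ha0] at h2; omega
    · have h4 := Nat.find_min h1 (m := Nat.find h1 - 1) (by omega)
      apply h4
      have : Nat.find h1 - 1 + 1 = Nat.find h1 := by omega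
      rw [this]; exact h2
  choose blk hblk1 hblk2 using hblk
  have hblk_uniq : ∀ i k, a k ≤ i → i < a (k + 1) → blk i = k := by
    intro i k h1 h2
    by_contra hne
    rcases Nat.lt_or_gt_of_ne hne with h3 | h3
    · have := hamono.monotone (show blk i + 1 ≤ k by omega)
      have := hblk2 i
      omega
    · have := hamono.monotone (show k + 1 ≤ blk i by omega)
      have := hblk1 i
      omega
  set μ : ℕ → ℕ → ℝ := fun k i => if i < a k then 1 else if i < a (k + 1) then
    l (nx k (a k)) i else 0 with hμ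
  have hμC : ∀ k i, |μ k i| ≤ C := by
    intro k i
    simp only [hμ]
    split_ifs with h1 h2
    · rw [abs_one]; exact le_max_right _ _
    · exact hlC _ _ (by rw [hasucc] at h2; omega)
    · rw [abs_zero]; exact zero_le_one.trans (le_max_right _ _)
  have hsort : ∀ k, ∃ π : Equiv.Perm ℕ, (∀ i, (i < a k ∨ a (k + 1) ≤ i) → π i = i) ∧
      (∀ i, a k ≤ i → i < a (k + 1) → a k ≤ π i ∧ π i < a (k + 1)) ∧
      ∀ i j, a k ≤ i → i ≤ j → j < a (k + 1) → μ k (π j) ≤ μ k (π i) :=
    fun k => exists_sort (μ k) (a k) (a (k + 1))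
  choose π hπ1 hπ2 hπ3 using hsort
  set s : ℕ → ℕ := fun i => π (blk i) i with hs
  have hsblk : ∀ i, blk (s i) = blk i := by
    intro i
    have h1 := hπ2 (blk i) i (hblk1 i) (hblk2 i)
    exact hblk_uniq _ _ h1.1 h1.2
  have hsinj : Function.Injective s := by
    intro i j hij
    have h1 : blk i = blk j := by rw [← hsblk i, ← hsblk j, hij]
    simp only [hs] at hij
    rw [h1] at hij
    exact (π (blk j)).injective hij
  have hssurj : Function.Surjective s := by
    intro j
    obtain ⟨i, hi⟩ := (π (blk j)).surjective j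
    have h1 : a (blk j) ≤ i ∧ i < a (blk j + 1) := by
      by_contra h2
      have h3 : i < a (blk j) ∨ a (blk j + 1) ≤ i := by omega
      have h4 := hπ1 (blk j) i h3
      rw [hi] at h4
      have := hblk1 j
      have := hblk2 j
      omega
    refine ⟨i, ?_⟩
    simp only [hs]
    rw [hblk_uniq i (blk j) h1.1 h1.2, hi]
  let σ : Equiv.Perm ℕ := Equiv.ofBijective s ⟨hsinj, hssurj⟩
  have hσ : ∀ i, σ i = s i := fun i => rfl
  have hσlt : ∀ k i, i < a k ↔ σ i < a k := by
    intro k i
    have key : ∀ j, j < a k ↔ blk j < k := by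
      intro j
      constructor
      · intro h
        by_contra h2
        have := hamono.monotone (show k ≤ blk j by omega)
        have := hblk1 j
        omega
      · intro h
        have := hamono.monotone (show blk j + 1 ≤ k by omega)
        have := hblk2 j
        omega
    rw [key, key, hσ, hsblk]
  -- the index of the row
  have hrow : ∀ n, ∃ k, a k ≤ n + 1 ∧ n + 1 < a (k + 1) := fun n => ⟨blk (n + 1), hblk1 _, hblk2 _⟩
  -- row `n` uses the operator of the block `blk (n+1) - 1`
  set c : ℕ → ℕ → ℝ := fun n i => if blk (n + 1) = 0 then 0 else μ (blk (n + 1) - 1) (σ i)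
    with hc
  have hcsupp : ∀ n i, n + 1 ≤ i → c n i = 0 := by
    intro n i hi
    simp only [hc]
    split_ifs with h
    · rfl
    · have h1 : blk (n + 1) - 1 + 1 = blk (n + 1) := by omega
      have h2 : a (blk (n + 1)) ≤ n + 1 := hblk1 (n + 1)
      have h3 : ¬ σ i < a (blk (n + 1)) := by rw [← hσlt]; omega
      simp only [hμ]
      rw [h1]
      have h4 : ¬ σ i < a (blk (n + 1) - 1) := by
        have := hamono.monotone (show blk (n + 1) - 1 ≤ blk (n + 1) by omega)
        omega
      rw [if_neg h4, if_neg h3]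
  have hblkt : Tendsto (fun n => blk (n + 1)) atTop atTop := by
    rw [tendsto_atTop]
    intro k
    filter_upwards [eventually_ge_atTop (a k)] with n hn
    by_contra h2
    have := hamono.monotone (show blk (n + 1) + 1 ≤ k by omega)
    have := hblk2 (n + 1)
    omega
  have hc1 : ∀ i, ∀ᶠ n in atTop, c n i = 1 := by
    intro i
    filter_upwards [hblkt.eventually_ge_atTop (blk i + 2)] with n hn
    simp only [hc]
    rw [if_neg (by omega)]
    simp only [hμ]
    rw [if_pos]
    rw [← hσlt]
    exact lt_of_lt_of_le (hblk2 i) (hamono.monotone (by omega))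
  refine ⟨σ, fun n m => c n m - c n (m + 1), ?_, ⟨6 * C, ?_⟩, ?_, ?_, ?_⟩
  · intro n m hnm
    change c n m - c n (m + 1) = 0
    rw [hcsupp n m (by omega), hcsupp n (m + 1) (by omega), sub_zero]
  · intro n
    by_cases h : blk (n + 1) = 0
    · have : ∀ m, c n m = 0 := fun m => by simp only [hc]; rw [if_pos h]
      simp only [this, sub_zero, abs_zero, Finset.sum_const_zero]
      have : 0 ≤ C := zero_le_one.trans (le_max_right _ _)
      positivity
    · set k := blk (n + 1) - 1 with hk
      have hcn : ∀ m, c n m = μ k (σ m) := fun m => by simp only [hc]; rw [if_neg h]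
      refine variation (c n) (a k) (a (k + 1)) C (fun m => by rw [hcn]; exact hμC _ _) ?_ ?_ ?_
        (halt k).le (n + 1)
      · intro m hm
        rw [hcn]
        simp only [hμ]
        rw [if_pos ((hσlt k m).mp hm)]
      · intro i j h1 h2 h3
        rw [hcn, hcn, hσ, hσ]
        simp only [hs]
        rw [hblk_uniq i k h1 (by omega), hblk_uniq j k (by omega) h3]
        exact hπ3 k i j h1 h2 h3
      · intro m hm
        rw [hcn]
        simp only [hμ]
        have h1 : ¬ σ m < a (k + 1) := by rw [← hσlt]; omega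
        have h2 : ¬ σ m < a k := by have := halt k; omega
        rw [if_neg h2, if_neg h1]
  · intro m
    refine (tendsto_const_nhds (x := (0 : ℝ))).congr' ?_
    filter_upwards [hc1 m, hc1 (m + 1)] with n h1 h2
    change 0 = c n m - c n (m + 1)
    rw [h1, h2, sub_self]
  · refine (tendsto_const_nhds (x := (1 : ℝ))).congr' ?_
    filter_upwards [hc1 0] with n h1
    have h2 := Finset.sum_range_sub' (c n) (n + 1)
    change 1 = ∑ m ∈ range (n + 1), (c n m - c n (m + 1))
    rw [h2, h1, hcsupp n (n + 1) le_rfl, sub_zero]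
  · intro y
    -- the operators `V k`
    have hV : ∀ k, ‖∑ i ∈ range (a (k + 1)), (μ k i : 𝕜) • f i y • x i - U (nx k (a k)) y‖ ≤
        1 / (k + 1) * ‖y‖ := by
      intro k
      have h1 : ∑ i ∈ range (a (k + 1)), (μ k i : 𝕜) • f i y • x i - U (nx k (a k)) y =
          ∑ i ∈ range (a k), ((1 - l (nx k (a k)) i : ℝ) : 𝕜) • f i y • x i := by
        rw [hUapp, ← hasucc, ← Finset.sum_sub_distrib]
        symm
        refine Finset.sum_subset_zero_on_sdiff ?_ ?_ ?_
        · intro i hi
          rw [Finset.mem_range] at hi ⊢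
          have := halt k
          omega
        · intro i hi
          rw [Finset.mem_sdiff, Finset.mem_range, Finset.mem_range] at hi
          simp only [hμ]
          rw [if_neg hi.2, if_pos hi.1, sub_self]
        · intro i hi
          rw [Finset.mem_range] at hi
          simp only [hμ]
          rw [if_pos hi, ← sub_smul]
          push_cast
          ring_nf
      rw [h1]
      calc ‖∑ i ∈ range (a k), ((1 - l (nx k (a k)) i : ℝ) : 𝕜) • f i y • x i‖
          ≤ ∑ i ∈ range (a k), |1 - l (nx k (a k)) i| * w i * ‖y‖ := by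
            refine (norm_sum_le _ _).trans (Finset.sum_le_sum fun i _ => ?_)
            rw [norm_smul, norm_smul, RCLike.norm_ofReal]
            have h2 := (f i).le_opNorm y
            have h3 : ‖f i y‖ * ‖x i‖ ≤ (‖f i‖ * ‖y‖) * ‖x i‖ :=
              mul_le_mul_of_nonneg_right h2 (norm_nonneg _)
            calc |1 - l (nx k (a k)) i| * (‖f i y‖ * ‖x i‖)
                ≤ |1 - l (nx k (a k)) i| * ((‖f i‖ * ‖y‖) * ‖x i‖) :=
                  mul_le_mul_of_nonneg_left h3 (abs_nonneg _)
              _ = |1 - l (nx k (a k)) i| * w i * ‖y‖ := by simp only [hw]; ring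
        _ = (∑ i ∈ range (a k), |1 - l (nx k (a k)) i| * w i) * ‖y‖ := by
            rw [Finset.sum_mul]
        _ ≤ 1 / (k + 1) * ‖y‖ := mul_le_mul_of_nonneg_right (hnx2 k (a k)) (norm_nonneg _)
    have hnt : Tendsto (fun k => nx k (a k)) atTop atTop := by
      have h1 : Tendsto (fun k => a (k + 1) - 1) atTop atTop := by
        rw [tendsto_atTop]
        intro b
        filter_upwards [eventually_ge_atTop b] with k hk
        have := hamono.le_apply (x := k + 1)
        omega
      refine h1.congr fun k => ?_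
      rw [hasucc]; omega
    have hVt : Tendsto (fun k => ∑ i ∈ range (a (k + 1)), (μ k i : 𝕜) • f i y • x i) atTop
        (𝓝 y) := by
      have h1 : Tendsto (fun k => U (nx k (a k)) y) atTop (𝓝 y) := by
        have h2 := (hl y).comp hnt
        refine h2.congr fun k => ?_
        rw [hUapp]; rfl
      have h2 : Tendsto (fun k => ∑ i ∈ range (a (k + 1)), (μ k i : 𝕜) • f i y • x i -
          U (nx k (a k)) y) atTop (𝓝 0) := by
        rw [tendsto_zero_iff_norm_tendsto_zero]
        refine squeeze_zero (fun _ => norm_nonneg _) hV ?_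
        have h3 := (tendsto_one_div_add_atTop_nhds_zero_nat (𝕜 := ℝ)).mul_const ‖y‖
        simpa using h3
      have h3 := h2.add h1
      simpa using h3
    have hk1 : Tendsto (fun n => blk (n + 1) - 1) atTop atTop :=
      (tendsto_sub_atTop_nat 1).comp hblkt
    have h4 := hVt.comp hk1
    refine h4.congr' ?_
    filter_upwards [hblkt.eventually_ge_atTop 1] with n hn
    simp only [Function.comp]
    have e1 := abel (𝕜 := 𝕜) (fun i => f (σ i) y • x (σ i)) (c n) n (hcsupp n (n + 1) le_rfl)
    rw [e1]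
    set k := blk (n + 1) - 1 with hk
    have hkk : k + 1 = blk (n + 1) := by omega
    have hcn : ∀ m, c n m = μ k (σ m) := fun m => by
      simp only [hc]; rw [if_neg (by omega)]
    have e2 : ∑ i ∈ range (n + 1), (c n i : 𝕜) • f (σ i) y • x (σ i) =
        ∑ i ∈ range (a (k + 1)), (c n i : 𝕜) • f (σ i) y • x (σ i) := by
      symm
      refine Finset.sum_subset ?_ ?_
      · intro i hi
        rw [Finset.mem_range] at hi ⊢
        have := hblk1 (n + 1)
        rw [hkk] at hi
        omega
      · intro i _ hi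
        rw [Finset.mem_range] at hi
        have : c n i = 0 := by
          rw [hcn]
          simp only [hμ]
          have h1 : ¬ σ i < a (k + 1) := by rw [← hσlt]; exact hi
          have h2 : ¬ σ i < a k := by have := halt k; omega
          rw [if_neg h2, if_neg h1]
        rw [this]; simp
    rw [e2]
    symm
    refine Finset.sum_nbij σ ?_ ?_ ?_ ?_
    · intro i hi
      rw [Finset.mem_range] at hi ⊢
      exact (hσlt _ _).mp hi
    · intro i _ j _ hij
      exact σ.injective hij
    · intro j hj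
      refine ⟨σ.symm j, ?_, by simp⟩
      rw [Finset.coe_range, Set.mem_Iio] at hj ⊢
      rw [hσlt]; simpa using hj
    · intro i _
      rw [hcn]

end Pool.Agent.R268.TB
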